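import Pool.Agent.H773.LK.Spec3

set_option autoImplicit false

noncomputable section

namespace Pool.Agent.H603.LK

open MeasureTheory Filter Topology Set Pool.Agent.H773.LK
open scoped ENNReal NNReal ComplexConjugate InnerProductSpace

/-- the phase -/
def ph (X y : ℝ → ℝ) (s : ℝ) (ξ : ℤ × ℝ) : ℂ :=
  Complex.exp (Complex.I * (((ξ.1 : ℝ) * X s + 2 * Real.pi * ξ.2 * y s : ℝ) : ℂ))

lemma ph_norm (X y : ℝ → ℝ) (s : ℝ) (ξ : ℤ × ℝ) : ‖ph X y s ξ‖ = 1 := by
  unfold ph
  rw [mul_comm]; exact Complex.norm_exp_ofReal_mul_I _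

lemma ph_conj (X y : ℝ → ℝ) (s : ℝ) (ξ : ℤ × ℝ) :
    conj (Complex.exp (-(Complex.I * (((ξ.1 : ℝ) * X s + 2 * Real.pi * ξ.2 * y s : ℝ) : ℂ)))) =
      ph X y s ξ := by
  unfold ph
  rw [← Complex.exp_conj]
  congr 1
  rw [map_neg, map_mul, Complex.conj_I, Complex.conj_ofReal]
  ring

lemma ph_cont {X y : ℝ → ℝ} (hX : Continuous X) (hy : Continuous y) :
    Continuous (fun p : ℝ × (ℤ × ℝ) => ph X y p.1 p.2) := by
  unfold ph
  have h1 : Continuous (fun p : ℝ × (ℤ × ℝ) => ((p.2.1 : ℤ) : ℝ)) :=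
    (continuous_of_discreteTopology (f := fun n : ℤ => (n : ℝ))).comp (by fun_prop)
  have h2 : Continuous (fun p : ℝ × (ℤ × ℝ) => (p.2.1 : ℝ) * X p.1 + 2 * Real.pi * p.2.2 * y p.1) := by
    fun_prop
  exact Complex.continuous_exp.comp (continuous_const.mul (Complex.continuous_ofReal.comp h2))

theorem t_YAD : S_YAD := by
  intro L β X y hc M θ Ys hM hYs v h hh hv
  set μ : Measure ℝ := volume.restrict (Ioc (0 : ℝ) L) with hμ
  haveI : IsFiniteMeasure μ := by
    rw [hμ]; infer_instance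
  set g : ℝ → ℂ := fun s => ∫ ξ, ph X y s ξ * h ξ ∂mZR with hg
  have hgb : ∀ s, ‖g s‖ ≤ ∫ ξ, ‖h ξ‖ ∂mZR := by
    intro s
    refine (norm_integral_le_integral_norm _).trans (le_of_eq ?_)
    refine integral_congr_ae (Eventually.of_forall fun ξ => ?_)
    simp only [norm_mul, ph_norm, one_mul]
  have hm : AEStronglyMeasurable (fun p : ℝ × (ℤ × ℝ) => ph X y p.1 p.2 * h p.2) (μ.prod mZR) :=
    (ph_cont hc.X_cont hc.y_cont).aestronglyMeasurable.mul hh.aestronglyMeasurable.comp_snd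
  have hgm : AEStronglyMeasurable g μ := hm.integral_prod_right'
  have hgL : MemLp g 2 μ := MemLp.of_bound hgm _ (Eventually.of_forall hgb)
  have key : Ys.adjoint v = hgL.toLp g := by
    refine ext_inner_left ℂ fun e => ?_
    rw [ContinuousLinearMap.adjoint_inner_right, L2.inner_def, L2.inner_def]
    have he : Integrable (e : ℝ → ℂ) μ := (Lp.memLp e).integrable (by norm_num)
    have e1 : ∫ ξ, ⟪(Ys e : ℤ × ℝ → ℂ) ξ, (v : ℤ × ℝ → ℂ) ξ⟫_ℂ ∂mZR =
        ∫ ξ, ∫ s, conj (e s) * (ph X y s ξ * h ξ) ∂μ ∂mZR := by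
      refine integral_congr_ae ?_
      filter_upwards [hYs e, hv] with ξ h1 h2
      rw [h1, h2, RCLike.inner_apply]
      have hw : 0 < ww β θ ξ + M := by
        have : 0 ≤ ww β θ ξ := by unfold ww; positivity
        linarith
      have hs : ((√(ww β θ ξ + M) : ℝ) : ℂ) ≠ 0 := by
        exact_mod_cast (Real.sqrt_pos.2 hw).ne'
      rw [map_div₀, Complex.conj_ofReal]
      have : ((√(ww β θ ξ + M) : ℝ) : ℂ) * h ξ * (conj (eh L X y e ξ) / ((√(ww β θ ξ + M) : ℝ) : ℂ))
          = conj (eh L X y e ξ) * h ξ := by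
        field_simp
      rw [this]
      unfold eh
      rw [← integral_conj, ← integral_mul_const]
      refine integral_congr_ae (Eventually.of_forall fun s => ?_)
      simp only [map_mul, ph_conj]
      ring
    have e2 : ∫ s, ⟪(e : ℝ → ℂ) s, (hgL.toLp g : ℝ → ℂ) s⟫_ℂ ∂μ =
        ∫ s, ∫ ξ, conj (e s) * (ph X y s ξ * h ξ) ∂mZR ∂μ := by
      refine integral_congr_ae ?_
      filter_upwards [hgL.coeFn_toLp] with s h1
      rw [h1, RCLike.inner_apply, hg, integral_const_mul]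
      ring
    rw [e1, e2]
    refine (integral_integral_swap ?_).symm
    have hi : Integrable (fun p : ℝ × (ℤ × ℝ) => conj (e p.1) * h p.2) (μ.prod mZR) :=
      Integrable.mul_prod (f := fun s => conj (e s)) (g := h)
        ((LinearIsometryEquiv.integrable_comp_iff (RCLike.conjLIE)).2 he) hh
    have hb := hi.bdd_mul (c := 1) (f := fun p : ℝ × (ℤ × ℝ) => ph X y p.1 p.2)
      (ph_cont hc.X_cont hc.y_cont).aestronglyMeasurable
      (Eventually.of_forall fun p => (ph_norm X y p.1 p.2).le)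
    refine hb.congr (Eventually.of_forall fun p => ?_)
    simp only [Function.uncurry]
    ring
  rw [key]
  exact hgL.coeFn_toLp

end Pool.Agent.H603.LK
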